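import Mathlib
import Pool.Agent.H21.SqRed
import Pool.Agent.H21.PL

namespace Pool.Agent.Results.MP_215185_al.NotResPL

open Pool.Agent.H21 Pool.Agent.H21.Sq Pool.Agent.H21.PL unitInterval Equiv
open scoped commutatorElement

def R0 : Set (List (Fin 6) × List (Fin 6)) :=
  {([0], [0, 1]), ([4], [1, 4]), ([4], [4, 1]), ([5], [1, 5]), ([1], [2]), ([2], [3]), ([3], [1])}

def lp (a b : List (Fin 6)) : List (Edge (Fin 6)) :=
  [(a, ([1], [2]), b, true), (a, ([2], [3]), b, true), (a, ([3], [1]), b, true)]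

def eL : Edge (Fin 6) := ([], ([0], [0, 1]), [4, 5], true)
def eK : Edge (Fin 6) := ([0, 4], ([5], [1, 5]), [], true)

def gs : Fin 4 → List (Edge (Fin 6)) :=
  ![eL :: lp [0] [4, 5] ++ [flip eL], eK :: lp [0, 4] [5] ++ [flip eK],
    [eK, ([0], ([4], [4, 1]), [5], false)], [eL, ([0], ([4], [1, 4]), [5], false)]]

lemma hg : ∀ i, Pth R0 [0, 4, 5] (gs i) [0, 4, 5] := fun i => by
  fin_cases i <;> simp [gs, lp, eL, eK, Pth, src, tgt, Sq.flip, R0]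

def up (π : ℕ × ℕ → ℕ × ℕ) : ℕ × ℕ → ℕ × ℕ
  | (0, t) => (0, t)
  | (i + 1, t) => ((π (i, t)).1 + 1, (π (i, t)).2)

def sh : Perm (ℕ × ℕ) →* Perm (ℕ × ℕ) := MonoidHom.mk' (fun π => ⟨up π, up π.symm,
  by rintro ⟨_ | i, t⟩ <;> simp [up], by rintro ⟨_ | i, t⟩ <;> simp [up]⟩) fun _ _ =>
  Equiv.ext (by rintro ⟨_ | i, t⟩ <;> rfl)

def mg : Perm (ℕ × ℕ) where
  toFun | (0, t) => (0, 2 * t) | (1, t) => (0, 2 * t + 1) | (i + 2, t) => (i + 1, t)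
  invFun | (0, t) => (t % 2, t / 2) | (i + 1, t) => (i + 2, t)
  left_inv := by rintro ⟨_ | _ | i, t⟩ <;> simp <;> omega
  right_inv := by
    rintro ⟨_ | i, t⟩
    · rcases Nat.mod_two_eq_zero_or_one t with h | h <;> simp [h] <;> omega
    · rfl

def sw (a b : ℕ) : Perm (ℕ × ℕ) := swap (0, a) (0, b)

lemma sw_sh (a b π) : sw a b * sh π = sh π * sw a b :=
  (mul_swap_eq_swap_mul (sh π) (0, a) (0, b)).symm

lemma mg_sh (π) : mg * sh (sh π) = sh π * mg := Equiv.ext (by rintro ⟨_ | _ | i, t⟩ <;> rfl)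

def γ (r : List (Fin 6) × List (Fin 6)) : Perm (ℕ × ℕ) :=
  if r.2.length = 2 then (if r = ([4], [1, 4]) then sw 1 2 * (sw 1 3 * mg) else mg)
  else if r.1 = [3] then sw 0 1 else 1

lemma hγ : ∀ r ∈ R0, ∀ π, γ r * sh^[r.2.length] π = sh^[r.1.length] π * γ r := by
  simp [R0, γ, mg_sh, sw_sh, mul_assoc]
  exact fun π => by rw [← mul_assoc (sw 1 3), sw_sh, mul_assoc, ← mul_assoc, sw_sh, mul_assoc]

abbrev f : FreeGroup (Fin 4) := .of 0
abbrev g : FreeGroup (Fin 4) := .of 1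
abbrev s : FreeGroup (Fin 4) := .of 2
abbrev t : FreeGroup (Fin 4) := .of 3

def W : FreeGroup (Fin 4) :=
  ⁅⁅⁅f, t⁆, ⁅s, t⁆ * ⁅g, s⁆ * ⁅s, t⁆⁻¹⁆, ⁅⁅g, s⁆, ⁅s, t⁆ * ⁅f, t⁆ * ⁅s, t⁆⁻¹⁆⁆

theorem result : ∃ (R : Set (List (Fin 6) × List (Fin 6))) (w : List (Fin 6)) (a : D R w),
    R.Finite ∧ Valid R w ∧ a ≠ 1 ∧
    (∀ φ : D R w →* (I ≃o I), (∀ b, IsPL (φ b)) → φ a = 1) ∧
    (∀ φ : D R w →* (I ≃o I), (∀ b, IsF (φ b)) → φ a = 1) := by
  have k : ∀ φ : D R0 [0, 4, 5] →* (I ≃o I), (∀ b, IsPL (φ b)) → φ (gen gs hg W) = 1 := fun φ h => by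
    let ψ := φ.comp (gen gs hg)
    have c : ∀ a b, red (wd gs (a * b * a⁻¹ * b⁻¹).toWord) = [] → Commute (ψ a) (ψ b) :=
      fun a b h => (chk gs hg a b h).map φ
    have := mixed (P := φ.range) (f := ψ f) (g := ψ g) (s := ψ s) (t := ψ t) (h := ψ ⁅s, t⁆)
      (by rintro _ ⟨b, rfl⟩; exact h b) ⟨_, rfl⟩ ⟨_, rfl⟩ ⟨_, rfl⟩ ⟨_, rfl⟩
      (map_commutatorElement ψ f t) (map_commutatorElement ψ g s) (c _ _ (by decide +kernel))
      (c _ _ (by decide +kernel)) ?_ ?_ ?_ ?_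
    · change ψ W = 1
      rw [W, map_commutatorElement, commutatorElement_eq_one_iff_commute]
      simpa only [map_commutatorElement ψ ⁅_, _⁆, map_mul, map_inv] using this
    all_goals simp only [← map_mul, ← map_inv, List.forall_mem_cons]
    · exact c _ _ (by decide +kernel)
    · exact c _ _ (by decide +kernel)
    all_goals exact ⟨c _ _ (by decide +kernel), c _ _ (by decide +kernel),
      c _ _ (by decide +kernel), c _ _ (by decide +kernel), by simp⟩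
  refine ⟨R0, _, _, by simp [R0], ⟨by simp, fun u v h => ?_⟩, fun h => ?_, k,
    fun φ h => k φ fun b => (h b).pl⟩
  · simp only [R0, Set.mem_insert_iff, Set.mem_singleton_iff, Prod.mk.injEq] at h ⊢
    rcases h with ⟨rfl, rfl⟩ | ⟨rfl, rfl⟩ | ⟨rfl, rfl⟩ | ⟨rfl, rfl⟩ | ⟨rfl, rfl⟩ | ⟨rfl, rfl⟩ |
      ⟨rfl, rfl⟩ <;> simp
  · obtain ⟨χ, hχ⟩ := rep sh γ hγ [0, 4, 5]
    obtain ⟨p, e⟩ := gen_mk gs hg W.toWord
    rw [FreeGroup.mk_toWord, h] at e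
    have := congrArg (fun a => χ a (0, 1)) e
    simp only [map_one, hχ] at this
    revert this
    decide +kernel

end Pool.Agent.Results.MP_215185_al.NotResPL
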